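import Pool.Agent.Work.MP_f5610a_lc.Defs
import Pool.Agent.Lib.Cx.Bridge
import Pool.Agent.Lib.Cx.Bits
import Pool.Agent.Lib.Cx.CookLevin

namespace Pool.Agent.Work.MP_f5610a_lc

open Pool.Agent.Lib.Cx

/-- The code with a numerical adjacency function. -/
def code (n : ℕ) (adj : ℕ → ℕ → Bool) (b : List Bool) : List Bool :=
  List.replicate n true ++ false ::
    (((List.range n).flatMap fun i => (List.range n).map fun j => adj i j) ++ b)

theorem encode_eq {n : ℕ} (G : SimpleGraph (Fin n)) (k : ℕ) (adj : ℕ → ℕ → Bool)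
    (h : ∀ i j : Fin n, adj i j = true ↔ G.Adj i j) : encode G k = code n adj k.bits := by
  classical
  unfold encode code
  rw [← finRange_flatMap]
  congr 3
  refine List.flatMap_congr fun i _ => ?_
  rw [← finRange_map]
  refine List.map_congr_left fun j _ => ?_
  by_cases h' : G.Adj i j
  · simp [h', (h i j).2 h']
  · simpa [h'] using fun h'' => h' ((h i j).1 h'')

/-! ### Membership in NP -/

/-- Number of vertices read from a code. -/
def nOf (x : List Bool) : ℕ := x.findIdx (· == false)
/-- Adjacency read from a code. -/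
def adjOf (x : List Bool) (i j : ℕ) : Bool := x.getD (nOf x + 1 + (i * nOf x + j)) false
/-- The binary part of a code. -/
def restOf (x : List Bool) : List Bool := x.drop (nOf x + 1 + nOf x * nOf x)
/-- The colour of a vertex read from a witness. -/
def colOf (n : ℕ) (w : List Bool) (i : ℕ) : ℕ := findLt n fun c => w.getD (i * n + c) false

/-- The verifier. -/
def verify (p : List Bool × List Bool) : Bool :=
  decide (p.1 = code (nOf p.1) (adjOf p.1) (restOf p.1) ∧ (restOf p.1).getLast? ≠ some false ∧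
    (∀ i < nOf p.1, adjOf p.1 i i = false ∧ colOf (nOf p.1) p.2 i < capVal (nOf p.1) (restOf p.1) ∧
      ∀ j < nOf p.1, adjOf p.1 i j = adjOf p.1 j i ∧
        (adjOf p.1 i j = true → colOf (nOf p.1) p.2 i ≠ colOf (nOf p.1) p.2 j)))

theorem ls_verify : LS verify := by
  unfold verify code colOf restOf adjOf nOf
  fun_prop

theorem nOf_code (n : ℕ) (adj : ℕ → ℕ → Bool) (b : List Bool) : nOf (code n adj b) = n := by
  unfold nOf code
  induction n with
  | zero => simp [List.findIdx_cons]
  | succ n ih =>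
    have key : ∀ (m : ℕ) (l : List Bool),
        (List.replicate m true ++ false :: l).findIdx (· == false) = m := by
      intro m l
      induction m with
      | zero => simp [List.findIdx_cons]
      | succ m ih => simp only [List.replicate_succ, List.cons_append, List.findIdx_cons, ih]; simp
    exact key _ _

theorem adjOf_code {n : ℕ} (adj : ℕ → ℕ → Bool) (b : List Bool) {i j : ℕ} (hi : i < n)
    (hj : j < n) : adjOf (code n adj b) i j = adj i j := by
  unfold adjOf
  rw [nOf_code, code, getD_append', if_neg (by simp; omega)]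
  have : n + 1 + (i * n + j) - (List.replicate n true).length = (i * n + j) + 1 := by
    simp; omega
  rw [this, List.getD_cons_succ, getD_append', length_matrix, if_pos (by (clear * - hi hj; nlinarith)),
    getD_matrix _ _ _ _ hi hj]

theorem restOf_code (n : ℕ) (adj : ℕ → ℕ → Bool) (b : List Bool) : restOf (code n adj b) = b := by
  unfold restOf
  rw [nOf_code, code, ← List.cons_append, ← List.append_assoc]
  apply List.drop_left'
  simp only [List.length_append, List.length_replicate, List.length_cons, length_matrix]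
  omega

theorem code_congr {n : ℕ} {adj adj' : ℕ → ℕ → Bool} (b : List Bool)
    (h : ∀ i < n, ∀ j < n, adj i j = adj' i j) : code n adj b = code n adj' b := by
  unfold code
  congr 3
  exact List.flatMap_congr fun i hi => List.map_congr_left fun j hj =>
    h i (List.mem_range.1 hi) j (List.mem_range.1 hj)

theorem coloring_mem_NP : coloring ∈ N68a2faeb.NP := by
  classical
  refine mem_NP_of_ls (Polynomial.X * Polynomial.X) verify ls_verify fun x => ?_
  simp only [coloring, decide_eq_true_eq, verify]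
  constructor
  · rintro ⟨n, G, k, rfl, hG⟩
    let adj : ℕ → ℕ → Bool := fun i j =>
      decide (∃ (hi : i < n) (hj : j < n), G.Adj ⟨i, hi⟩ ⟨j, hj⟩)
    have hadj : ∀ i j : Fin n, adj i j = true ↔ G.Adj i j := fun i j => by simp [adj]
    have hcol : G.Colorable (min n k) := by
      rcases le_total n k with h | h
      · rw [min_eq_left h]; simpa using G.colorable_of_fintype
      · rwa [min_eq_right h]
    obtain ⟨C, hC⟩ := (G.colorable_iff_exists_bdd_nat_coloring _).1 hcol
    let col : ℕ → ℕ := fun i => if h : i < n then C ⟨i, h⟩ else 0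
    let w := (List.range n).flatMap fun i => (List.range n).map fun c => decide (c = col i)
    have hw : ∀ i (hi : i < n), colOf n w i = C ⟨i, hi⟩ := fun i hi => by
      have h1 : C ⟨i, hi⟩ < n := (hC _).trans_le (min_le_left _ _)
      refine findLt_eq h1.le (fun _ => ?_) fun c hc => ?_
      · rw [getD_matrix _ _ _ _ hi h1]; simp [col, hi]
      · rw [getD_matrix _ _ _ _ hi (hc.trans h1)]; simp [col, hi]; omega
    rw [encode_eq G k adj hadj]
    refine ⟨w, ?_, ?_⟩
    · have : n ≤ (code n adj k.bits).length := by simp [code]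
      simp only [w, length_matrix, Polynomial.eval_mul, Polynomial.eval_X]
      exact Nat.mul_le_mul this this
    · simp only [nOf_code, restOf_code]
      refine ⟨code_congr _ fun i hi j hj => (adjOf_code _ _ hi hj).symm,
        (canon_iff _).1 (canon_bits k), fun i hi => ⟨?_, ?_, fun j hj => ⟨?_, ?_⟩⟩⟩
      · rw [adjOf_code _ _ hi hi]; simp [adj]
      · rw [hw i hi, capVal_eq, bval_bits]; exact hC _
      · rw [adjOf_code _ _ hi hj, adjOf_code _ _ hj hi]; simp [adj, hi, hj, G.adj_comm]
      · rw [adjOf_code _ _ hi hj, hw i hi, hw j hj]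
        exact fun h => C.valid ((hadj ⟨i, hi⟩ ⟨j, hj⟩).1 h)
  · rintro ⟨w, -, h1, h2, h3⟩
    let G : SimpleGraph (Fin (nOf x)) :=
      { Adj := fun i j => adjOf x i j = true
        symm := ⟨fun i j h => by rwa [← ((h3 i i.2).2.2 j j.2).1]⟩
        loopless := ⟨fun i h => by simp [(h3 i i.2).1] at h⟩ }
    refine ⟨nOf x, G, bval (restOf x), ?_, ?_⟩
    · rw [encode_eq G _ (adjOf x) fun _ _ => Iff.rfl, ((canon_iff _).2 h2).bits_bval]
      exact h1
    · refine (G.colorable_iff_exists_bdd_nat_coloring _).2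
        ⟨SimpleGraph.Coloring.mk (fun i => colOf (nOf x) w i) fun {i j} h =>
          ((h3 i i.2).2.2 j j.2).2 h, fun i => ?_⟩
      have := (h3 i i.2).2.1
      rw [capVal_eq] at this
      exact this.trans_le (min_le_right _ _)

/-! ### The reduction -/

/-- CNF formulas. -/
abbrev CNF := List (List (ℕ × Bool))

/-- Vertex `t` of the variable part is the vertex of a literal of clause `c`. -/
def Occ (φ : CNF) (c t : ℕ) : Prop :=
  (t % 3 = 0 ∧ (t / 3, true) ∈ φ.getD c []) ∨ (t % 3 = 2 ∧ (t / 3, false) ∈ φ.getD c [])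

instance (φ : CNF) (c t : ℕ) : Decidable (Occ φ c t) := by unfold Occ; infer_instance

/-- Adjacency (for distinct vertices) in the even-hole-free graph: the clauses form a clique,
each variable gives a path on three vertices whose ends are joined to the clauses containing the
corresponding literal. -/
def HAdj (φ : CNF) (i j : ℕ) : Prop :=
  if i < φ.length then (if j < φ.length then True else Occ φ i (j - φ.length))
  else if j < φ.length then Occ φ j (i - φ.length)
  else (i - φ.length) / 3 = (j - φ.length) / 3 ∧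
    ((i - φ.length) % 3 = 1 ∨ (j - φ.length) % 3 = 1)

instance (φ : CNF) (i j : ℕ) : Decidable (HAdj φ i j) := by unfold HAdj; infer_instance

theorem HAdj.symm {φ : CNF} {i j : ℕ} (h : HAdj φ i j) : HAdj φ j i := by
  unfold HAdj at h ⊢
  split_ifs at h ⊢ <;> first | exact h | exact ⟨h.1.symm, h.2.symm⟩

/-- The complement of the even-hole-free graph. -/
def gr (φ : CNF) (N : ℕ) : SimpleGraph (Fin N) where
  Adj i j := i.val ≠ j.val ∧ ¬HAdj φ i j
  symm := ⟨fun _ _ h => ⟨h.1.symm, fun h' => h.2 h'.symm⟩⟩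
  loopless := ⟨fun _ h => h.1 rfl⟩

/-- No clause contains a variable with both signs. -/
def NoTaut (φ : CNF) : Prop := ∀ c ∈ φ, ∀ v, (v, true) ∈ c → (v, false) ∉ c

theorem no_hole {φ : CNF} (hφ : NoTaut φ) (y : ℕ → ℕ) (h1 : ∀ s, HAdj φ (y s) (y (s + 1)))
    (h1' : ∀ s, y s ≠ y (s + 1))
    (h2 : ∀ s, ¬HAdj φ (y s) (y (s + 2))) (h2' : ∀ s, y s ≠ y (s + 2))
    (h4 : ∀ s, y s = y (s + 4) ∨ ¬HAdj φ (y s) (y (s + 4))) : False := by
  have hcl : ∀ s, φ.length ≤ y s ∨ φ.length ≤ y (s + 2) := fun s => by
    by_contra h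
    apply h2 s
    unfold HAdj
    rw [if_pos (by omega), if_pos (by omega)]; trivial
  have nbr : ∀ a b, HAdj φ a b → a ≠ b → φ.length ≤ a → φ.length ≤ b →
      (a - φ.length) / 3 = (b - φ.length) / 3 ∧
        ((a - φ.length) % 3 = 1 ∨ (b - φ.length) % 3 = 1) := fun a b h _ ha hb => by
    unfold HAdj at h
    rwa [if_neg (by omega), if_neg (by omega)] at h
  have occ : ∀ a b, HAdj φ a b → φ.length ≤ a → b < φ.length → Occ φ b (a - φ.length) :=
    fun a b h ha hb => by
      unfold HAdj at h
      rwa [if_neg (by omega), if_pos hb] at h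
  have mid : ∃ s, φ.length ≤ y (s + 2) ∧ (y (s + 2) - φ.length) % 3 = 1 := by
    obtain ⟨j, hj⟩ : ∃ j, φ.length ≤ y (j + 3) := by
      rcases hcl 3 with h | h
      exacts [⟨0, h⟩, ⟨2, h⟩]
    by_cases h : (y (j + 3) - φ.length) % 3 = 1
    · exact ⟨j + 1, hj, h⟩
    · rcases hcl (j + 2) with h' | h'
      · have := nbr (y (j + 2)) (y (j + 3)) (h1 (j + 2)) (h1' _) h' hj
        exact ⟨j, h', by omega⟩
      · have := nbr (y (j + 3)) (y (j + 2 + 2)) (h1 (j + 3)) (h1' _) hj h'
        exact ⟨j + 2, h', by omega⟩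
  obtain ⟨s, hs, hs'⟩ := mid
  have a01 : HAdj φ (y s) (y (s + 1)) := h1 s
  have a12 : HAdj φ (y (s + 1)) (y (s + 2)) := h1 (s + 1)
  have a23 : HAdj φ (y (s + 2)) (y (s + 3)) := h1 (s + 2)
  have a34 : HAdj φ (y (s + 3)) (y (s + 4)) := h1 (s + 3)
  have g01 : y s ≠ y (s + 1) := h1' s
  have g12 : y (s + 1) ≠ y (s + 2) := h1' (s + 1)
  have g23 : y (s + 2) ≠ y (s + 3) := h1' (s + 2)
  have g34 : y (s + 3) ≠ y (s + 4) := h1' (s + 3)
  have g02 : y s ≠ y (s + 2) := h2' s
  have g13 : y (s + 1) ≠ y (s + 3) := h2' (s + 1)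
  have g24 : y (s + 2) ≠ y (s + 4) := h2' (s + 2)
  have h04 := h4 s
  clear h1 h1' h2 h2' h4 hcl
  generalize y s = y0 at *
  generalize y (s + 1) = y1 at *
  generalize y (s + 2) = y2 at *
  generalize y (s + 3) = y3 at *
  generalize y (s + 4) = y4 at *
  have e1 : φ.length ≤ y1 := by
    by_contra h
    have := occ _ _ a12.symm hs (by omega)
    unfold Occ at this; omega
  have e3 : φ.length ≤ y3 := by
    by_contra h
    have := occ _ _ a23 hs (by omega)
    unfold Occ at this; omega
  have f1 := nbr _ _ a12 g12 e1 hs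
  have f3 := nbr _ _ a23 g23 hs e3
  have c0 : y0 < φ.length := by
    by_contra h
    have := nbr _ _ a01 g01 (by omega) e1
    (clear * - e1 e3 f1 f3 g02 g12 g13 g23 g24 g34 h h04 hs hs' this; lia)
  have c4 : y4 < φ.length := by
    by_contra h
    have := nbr _ _ a34 g34 e3 (by omega)
    (clear * - c0 e1 e3 f1 f3 g02 g12 g13 g23 g24 g34 h h04 hs hs' this; lia)
  rcases h04 with h | h
  · have o1 := occ _ _ a01.symm e1 c0
    have o3 := occ _ _ a34 e3 c4
    rw [← h] at o3
    have hm : φ.getD y0 [] ∈ φ := by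
      rw [List.getD_eq_getElem?_getD, List.getElem?_eq_getElem c0]; exact List.getElem_mem _
    have ev : (y1 - φ.length) / 3 = (y3 - φ.length) / 3 := by omega
    unfold Occ at o1 o3
    rw [← ev] at o3
    rcases o1 with o1 | o1 <;> rcases o3 with o3 | o3
    · omega
    · exact hφ _ hm _ o1.2 o3.2
    · exact hφ _ hm _ o3.2 o1.2
    · omega
  · apply h
    unfold HAdj
    rw [if_pos c0, if_pos c4]; trivial

theorem gr_free {φ : CNF} (hφ : NoTaut φ) (N : ℕ) : EvenAntiholeFree (gr φ N) := by
  intro m hm he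
  obtain ⟨k, rfl⟩ : ∃ k, m = k + 4 := ⟨m - 4, by omega⟩
  refine ⟨fun e => ?_⟩
  have key : ∀ u v : Fin (k + 4), u ≠ v →
      (HAdj φ (e u) (e v) ↔ (SimpleGraph.cycleGraph (k + 4)).Adj u v) := fun u v h => by
    have h1 := e.map_rel_iff (a := u) (b := v)
    have h2 : (e u).val ≠ (e v).val := fun h' => h (e.injective (Fin.ext h'))
    simp only [gr, SimpleGraph.compl_adj, ne_eq, h, not_false_eq_true, true_and] at h1
    exact not_iff_not.1 ⟨fun h' => h1.1 ⟨h2, h'⟩, fun h' => (h1.2 h').2⟩
  have inj : ∀ u v : Fin (k + 4), u ≠ v → (e u).val ≠ (e v).val :=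
    fun u v h h' => h (e.injective (Fin.ext h'))
  have n1 : (1 : Fin (k + 4)) ≠ 0 := by simp
  have n2 : (1 + 1 : Fin (k + 4)) ≠ 0 := by
    simp [Fin.ext_iff, Fin.val_add, Nat.mod_eq_of_lt]
  have n3 : (1 + 1 + 1 : Fin (k + 4)) ≠ 0 := by
    simp [Fin.ext_iff, Fin.val_add, Nat.mod_eq_of_lt]
  have n5 : (1 + 1 + 1 + 1 + 1 : Fin (k + 4)) ≠ 0 := by
    rcases k with _ | _ | k
    · decide
    · exact absurd he (by decide)
    · simp [Fin.ext_iff, Fin.val_add, Nat.mod_eq_of_lt]
  let z : ℕ → Fin (k + 4) := fun t => (· + 1)^[t] 0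
  have hz : ∀ t, z (t + 1) = z t + 1 := fun t => Function.iterate_succ_apply' _ _ _
  have d1 : ∀ s, z s ≠ z (s + 1) := fun s h => n1 (by rw [hz] at h; simpa using h.symm)
  have d2 : ∀ s, z s ≠ z (s + 2) := fun s h => n2 (by
    rw [hz, hz, add_assoc] at h; simpa using h.symm)
  refine no_hole hφ (fun t => e (z t)) (fun s => ?_) (fun s => inj _ _ (d1 s)) (fun s => ?_)
    (fun s => inj _ _ (d2 s)) (fun s => ?_)
  · rw [key _ _ (d1 s), SimpleGraph.cycleGraph_adj, hz]; simp
  · rw [key _ _ (d2 s), hz, hz]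
    rintro (h | h)
    · exact n3 (by rw [sub_eq_iff_eq_add] at h; apply add_left_cancel (a := z s)
                   conv_rhs => rw [h]
                   abel)
    · exact n1 (by rw [sub_eq_iff_eq_add] at h; apply add_left_cancel (a := z s + 1)
                   rw [h]; abel)
  · by_cases h : z s = z (s + 4)
    · exact Or.inl (by simp only [h])
    · right
      rw [key _ _ h, hz, hz, hz, hz]
      rintro (h | h)
      · exact n5 (by rw [sub_eq_iff_eq_add] at h; apply add_left_cancel (a := z s)
                     conv_rhs => rw [h]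
                     abel)
      · exact n3 (by rw [sub_eq_iff_eq_add] at h; apply add_left_cancel (a := z s + 1)
                     rw [← add_assoc, ← add_assoc, h]; abel)

theorem gr_colorable {φ : CNF} {nv : ℕ} (hv : ∀ c ∈ φ, ∀ l ∈ c, l.1 < nv) :
    (gr φ (φ.length + 3 * nv)).Colorable (2 * nv) ↔
      ∃ a : ℕ → Bool, ∀ c ∈ φ, ∃ l ∈ c, a l.1 = l.2 := by
  classical
  have hget : ∀ i (hi : i < φ.length), φ.getD i [] = φ[i] := fun i hi => by
    rw [List.getD_eq_getElem?_getD, List.getElem?_eq_getElem hi]; rfl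
  constructor
  · rintro ⟨C⟩
    let vx : Fin nv → Fin 3 → Fin (φ.length + 3 * nv) := fun v r =>
      ⟨φ.length + (3 * v + r), by omega⟩
    let lit : Fin nv × Bool → Fin (φ.length + 3 * nv) := fun l => vx l.1 (if l.2 then 0 else 2)
    have same : ∀ i j, C i = C j → i = j ∨ HAdj φ i j := fun i j h => by
      by_contra h'
      push Not at h'
      exact C.valid (show (gr φ _).Adj i j from ⟨fun e => h'.1 (Fin.ext e), h'.2⟩) h
    have hinj : Function.Injective fun l => C (lit l) := by
      rintro ⟨v, s⟩ ⟨v', s'⟩ h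
      rcases same _ _ h with h | h
      · simp only [lit, vx, Fin.mk.injEq] at h
        cases s <;> cases s' <;> simp at h ⊢ <;> omega
      · simp only [lit, vx, HAdj] at h
        rw [if_neg (by omega), if_neg (by omega)] at h
        cases s <;> cases s' <;> simp at h <;> omega
    have hsurj : Function.Surjective fun l => C (lit l) :=
      ((Fintype.bijective_iff_injective_and_card _).2 ⟨hinj, by simp [mul_comm]⟩).2
    refine ⟨fun v => if h : v < nv then decide (C (vx ⟨v, h⟩ 1) = C (vx ⟨v, h⟩ 2)) else false,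
      fun c hc => ?_⟩
    obtain ⟨i, hi, rfl⟩ := List.getElem_of_mem hc
    obtain ⟨⟨v, s⟩, hl⟩ := hsurj (C ⟨i, by omega⟩)
    have h1 : (v.val, s) ∈ φ[i] := by
      rcases same _ _ hl with h | h
      · simp only [lit, vx, Fin.mk.injEq] at h; omega
      · simp only [lit, vx, HAdj] at h
        rw [if_neg (by omega), if_pos hi, Occ, hget i hi] at h
        cases s <;> simp at h
        · have e : (3 * v.val + 2) / 3 = v := by omega
          rw [e] at h; exact h
        · exact h
    have h2 : C (vx v 1) ≠ C ⟨i, by omega⟩ := fun h => by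
      rcases same _ _ h with h | h
      · simp only [vx, Fin.mk.injEq] at h; omega
      · simp only [vx, HAdj] at h
        rw [if_neg (by omega), if_pos hi, Occ] at h
        simp at h
    refine ⟨(v, s), h1, ?_⟩
    simp only [v.2, dif_pos, Fin.eta]
    cases s
    · simpa [lit, ← hl] using h2
    · obtain ⟨⟨v', s'⟩, hl'⟩ := hsurj (C (vx v 1))
      have h3 : v' = v := by
        rcases same _ _ hl' with h | h
        · simp only [lit, vx, Fin.mk.injEq] at h
          cases s' <;> simp at h <;> omega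
        · simp only [lit, vx, HAdj] at h
          rw [if_neg (by omega), if_neg (by omega)] at h
          cases s' <;> simp at h <;> omega
      subst h3
      cases s'
      · simpa [lit] using hl'.symm
      · exact absurd (hl'.symm.trans hl) h2
  · rintro ⟨a, ha⟩
    have hch : ∀ i : Fin φ.length, ∃ l ∈ φ[i.val], a l.1 = l.2 := fun i =>
      ha _ (List.getElem_mem _)
    choose l hl hla using hch
    let col : ℕ → ℕ := fun i =>
      if h : i < φ.length then 2 * (l ⟨i, h⟩).1 + (if (l ⟨i, h⟩).2 then 0 else 1)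
      else 2 * ((i - φ.length) / 3) +
        (if (i - φ.length) % 3 = 0 then 0 else if (i - φ.length) % 3 = 2 then 1
          else if a ((i - φ.length) / 3) then 1 else 0)
    have mixed : ∀ i j (hi : i < φ.length), ¬j < φ.length → col i = col j →
        Occ φ i (j - φ.length) := fun i j hi hj h => by
      have h1 := hl ⟨i, hi⟩
      have h2 := hla ⟨i, hi⟩
      simp only [col, dif_pos hi, dif_neg hj] at h
      rw [Occ, hget i hi]
      generalize l ⟨i, hi⟩ = p at h h1 h2
      obtain ⟨v, s⟩ := p
      have e : (j - φ.length) / 3 = v := by split_ifs at h <;> omega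
      rw [e] at h ⊢
      cases s <;> simp only [h2] at h <;> split_ifs at h <;> simp_all
    refine (SimpleGraph.colorable_iff_exists_bdd_nat_coloring _).2
      ⟨SimpleGraph.Coloring.mk (fun i => col i) fun {i j} h h' => h.2 ?_, fun i => ?_⟩
    · unfold HAdj
      split_ifs with hi hj hj
      · exact mixed _ _ hi hj h'
      · exact mixed _ _ hj hi h'.symm
      · have := h.1
        simp only [col, dif_neg hi, dif_neg hj] at h'
        split_ifs at h' <;> omega
    · change col i < 2 * nv
      have := i.2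
      simp only [col]
      split_ifs with hi
      · have := hv _ (List.getElem_mem _) _ (hl ⟨i, hi⟩); omega
      · have := hv _ (List.getElem_mem _) _ (hl ⟨i, hi⟩); omega
      all_goals omega

/-- Remove tautological clauses. -/
def clean (φ : CNF) : CNF := φ.filter fun c => decide (∀ l ∈ c, (l.1, !l.2) ∉ c)

/-- A bound on the variables. -/
def nvar (φ : CNF) : ℕ := (φ.map fun c => (c.map fun l => l.1 + 1).sum).sum

theorem lt_nvar {φ : CNF} {c : List (ℕ × Bool)} (hc : c ∈ φ) {l : ℕ × Bool} (hl : l ∈ c) :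
    l.1 < nvar φ := by
  have h1 := List.le_sum_of_mem (List.mem_map_of_mem (f := fun l : ℕ × Bool => l.1 + 1) hl)
  have h2 := List.le_sum_of_mem
    (List.mem_map_of_mem (f := fun c : List (ℕ × Bool) => (c.map fun l => l.1 + 1).sum) hc)
  unfold nvar; omega

theorem noTaut_clean (φ : CNF) : NoTaut (clean φ) := fun c hc v h => by
  have := (List.mem_filter.1 hc).2
  simp only [decide_eq_true_eq] at this
  exact this _ h

theorem sat_clean (φ : CNF) (a : ℕ → Bool) :
    (∀ c ∈ clean φ, ∃ l ∈ c, a l.1 = l.2) ↔ ∀ c ∈ φ, ∃ l ∈ c, a l.1 = l.2 := by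
  refine ⟨fun h c hc => ?_, fun h c hc => h c (List.mem_filter.1 hc).1⟩
  by_cases ht : ∀ l ∈ c, (l.1, !l.2) ∉ c
  · exact h c (List.mem_filter.2 ⟨hc, by simpa using ht⟩)
  · push Not at ht
    obtain ⟨l, h1, h2⟩ := ht
    by_cases e : a l.1 = l.2
    · exact ⟨l, h1, e⟩
    · exact ⟨_, h2, by revert e; cases a l.1 <;> cases l.2 <;> simp⟩

/-- The reduction on formulas. -/
def red (φ : CNF) : List Bool :=
  code (φ.length + 3 * nvar φ) (fun i j => decide (i ≠ j ∧ ¬HAdj φ i j)) (2 * nvar φ).bits

theorem ls_red : LS red := by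
  unfold red code nvar HAdj Occ
  fun_prop

theorem ls_clean : LS clean := by
  unfold clean
  fun_prop

theorem hard (L : N68a2faeb.DecisionProblem) (hL : L ∈ N68a2faeb.NP) :
    ∃ f : List Bool → List Bool, N68a2faeb.IsPolyTime f ∧ ∀ x,
      ∃ (n : ℕ) (G : SimpleGraph (Fin n)) (k : ℕ), f x = encode G k ∧ EvenAntiholeFree G ∧
        (L x = true ↔ G.Colorable k) := by
  obtain ⟨φ, hφ, -, h⟩ := cook_levin_ls L hL
  refine ⟨fun x => red (clean (φ x)),
    (LS.comp _ _ ls_red (LS.comp _ _ ls_clean hφ)).isPolyTime, fun x =>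
    ⟨_, gr (clean (φ x)) ((clean (φ x)).length + 3 * nvar (clean (φ x))), 2 * nvar (clean (φ x)),
      (encode_eq _ _ _ fun i j => by simp [gr]).symm, gr_free (noTaut_clean _) _, ?_⟩⟩
  rw [h, gr_colorable fun c hc l hl => lt_nvar hc hl]
  simp only [sat_clean]

end Pool.Agent.Work.MP_f5610a_lc
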