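import Mathlib
import Pool.Prelude.Def_H_3587d628

namespace Pool.Agent.Work.MP_f5610a_lc

open Classical in
/-- The code of an instance `(G, k)` of COLORING: the number `n` of vertices in unary, a zero, the
adjacency matrix row by row, and `k` in binary. -/
noncomputable def encode {n : ℕ} (G : SimpleGraph (Fin n)) (k : ℕ) : List Bool :=
  List.replicate n true ++ false ::
    (((List.finRange n).flatMap fun i => (List.finRange n).map fun j => decide (G.Adj i j)) ++
      k.bits)

open Classical in
/-- COLORING as a language: the codes of pairs `(G, k)` with `G` properly `k`-colourable. -/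
noncomputable def coloring : N68a2faeb.DecisionProblem := fun x =>
  decide (∃ (n : ℕ) (G : SimpleGraph (Fin n)) (k : ℕ), x = encode G k ∧ G.Colorable k)

/-- No induced subgraph is isomorphic to the complement of a cycle of even length at least 4. -/
def EvenAntiholeFree {V : Type} (G : SimpleGraph V) : Prop :=
  ∀ m : ℕ, 4 ≤ m → Even m → IsEmpty ((SimpleGraph.cycleGraph m)ᶜ ↪g G)

end Pool.Agent.Work.MP_f5610a_lc
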